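import Pool.Agent.N741.HB.Stm5

/-!
# HK/K2 (project HK, subtask 5700, helper42): a Dirichlet lemma for heights on `ℤ ^ P`
-/

set_option autoImplicit false

namespace Pool.Agent.N42.HK

open Pool.Agent.N741.HK

/-- Dirichlet's simultaneous approximation, in integers. -/
theorem dirichlet {P : ℕ} (L T : ℕ) (hL : 0 < L) (hT : 0 < T) (a : Fin P → ℤ) :
    ∃ (m : ℕ) (n : Fin P → ℤ), 1 ≤ m ∧ m ≤ L ^ P ∧ ∀ j, |(m : ℤ) * a j - T * n j| * L < T := by
  have hT' : (0 : ℤ) < T := by exact_mod_cast hT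
  have hL' : (0 : ℤ) < L := by exact_mod_cast hL
  let φ : ℕ → (Fin P → Fin L) := fun m j =>
    ⟨((L : ℤ) * (((m : ℤ) * a j) % T) / T).toNat, by
      have h1 : 0 ≤ ((m : ℤ) * a j) % T := Int.emod_nonneg _ hT'.ne'
      have h2 : ((m : ℤ) * a j) % T < T := Int.emod_lt_of_pos _ hT'
      have h3 : (L : ℤ) * (((m : ℤ) * a j) % T) / T < L := by
        rw [Int.ediv_lt_iff_lt_mul hT']
        exact mul_lt_mul_of_pos_left h2 hL'
      omega⟩
  have hcard : (Finset.univ : Finset (Fin P → Fin L)).card < (Finset.range (L ^ P + 1)).card := by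
    rw [Finset.card_univ, Fintype.card_fun, Fintype.card_fin, Fintype.card_fin, Finset.card_range]
    exact Nat.lt_succ_self _
  obtain ⟨m₁, hm₁, m₂, hm₂, hne, heq⟩ := Finset.exists_ne_map_eq_of_card_lt_of_maps_to hcard
    (f := φ) (fun m _ => Finset.mem_univ _)
  have key : ∀ m₁ m₂ : ℕ, m₁ < m₂ → m₂ ≤ L ^ P → φ m₁ = φ m₂ →
      ∃ (m : ℕ) (n : Fin P → ℤ), 1 ≤ m ∧ m ≤ L ^ P ∧ ∀ j, |(m : ℤ) * a j - T * n j| * L < T := by
    intro m₁ m₂ hlt hle heq
    refine ⟨m₂ - m₁, fun j => (m₂ : ℤ) * a j / T - (m₁ : ℤ) * a j / T, by omega, by omega,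
      fun j => ?_⟩
    have h1 := congrArg (fun f : Fin P → Fin L => ((f j : ℕ) : ℤ)) heq
    simp only [φ] at h1
    have p1 : 0 ≤ ((m₁ : ℤ) * a j) % T := Int.emod_nonneg _ hT'.ne'
    have p2 : 0 ≤ ((m₂ : ℤ) * a j) % T := Int.emod_nonneg _ hT'.ne'
    have q1 : 0 ≤ (L : ℤ) * (((m₁ : ℤ) * a j) % T) / T := Int.ediv_nonneg (by positivity) hT'.le
    have q2 : 0 ≤ (L : ℤ) * (((m₂ : ℤ) * a j) % T) / T := Int.ediv_nonneg (by positivity) hT'.le
    rw [Int.toNat_of_nonneg q1, Int.toNat_of_nonneg q2] at h1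
    have d1 := Int.emod_add_mul_ediv ((m₁ : ℤ) * a j) T
    have d2 := Int.emod_add_mul_ediv ((m₂ : ℤ) * a j) T
    have d3 := Int.emod_add_mul_ediv ((L : ℤ) * (((m₁ : ℤ) * a j) % T)) T
    have d4 := Int.emod_add_mul_ediv ((L : ℤ) * (((m₂ : ℤ) * a j) % T)) T
    have r1 := Int.emod_nonneg ((L : ℤ) * (((m₁ : ℤ) * a j) % T)) hT'.ne'
    have r2 := Int.emod_nonneg ((L : ℤ) * (((m₂ : ℤ) * a j) % T)) hT'.ne'
    have s1 := Int.emod_lt_of_pos ((L : ℤ) * (((m₁ : ℤ) * a j) % T)) hT'
    have s2 := Int.emod_lt_of_pos ((L : ℤ) * (((m₂ : ℤ) * a j) % T)) hT'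
    have e1 : ((m₂ - m₁ : ℕ) : ℤ) * a j - T * ((m₂ : ℤ) * a j / T - (m₁ : ℤ) * a j / T) =
        ((m₂ : ℤ) * a j) % T - ((m₁ : ℤ) * a j) % T := by
      rw [Nat.cast_sub hlt.le]
      linarith
    rw [e1]
    have e2 : |((m₂ : ℤ) * a j) % T - ((m₁ : ℤ) * a j) % T| * L =
        |(L : ℤ) * (((m₂ : ℤ) * a j) % T) - (L : ℤ) * (((m₁ : ℤ) * a j) % T)| := by
      rw [← mul_sub, abs_mul, abs_of_pos hL', mul_comm]
    rw [e2, abs_lt]
    rw [h1] at d3
    constructor <;> linarith
  rw [Finset.mem_range] at hm₁ hm₂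
  rcases lt_or_gt_of_ne hne with h | h
  · exact key m₁ m₂ h (by omega) heq
  · exact key m₂ m₁ h (by omega) heq.symm

theorem dio : S_dio := by
  intro P C
  obtain ⟨L, hLdef⟩ : ∃ L, L = 2 * P * C + 2 := ⟨_, rfl⟩
  refine ⟨2 * L ^ P * (C + 1), fun H hadd hmul hneg hs a ha => ?_⟩
  obtain ⟨B, hB⟩ : ∃ B, B = 2 * L ^ P * (C + 1) := ⟨_, rfl⟩
  rw [← hB]
  -- a minimal vector
  have hex : ∃ s : ℕ, ∃ a' : Fin P → ℤ, H (a - a') = 0 ∧ ∑ j, (a' j).natAbs = s := by
    refine ⟨_, a, ?_, rfl⟩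
    have := hmul 0 a
    rw [zero_smul, zero_mul] at this
    rw [sub_self]
    exact this
  classical
  obtain ⟨a', ha', hsum⟩ := Nat.find_spec hex
  have hmin : ∀ b : Fin P → ℤ, H (a - b) = 0 → ∑ j, (a' j).natAbs ≤ ∑ j, (b j).natAbs := by
    intro b hb
    rw [hsum]
    exact Nat.find_min' hex ⟨b, hb, rfl⟩
  refine ⟨a', ?_, ha'⟩
  by_contra hcon
  push Not at hcon
  obtain ⟨j₁, hj₁⟩ := hcon
  -- the maximum
  obtain ⟨j₀, -, hj₀⟩ := Finset.exists_max_image Finset.univ (fun j => (a' j).natAbs)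
    ⟨j₁, Finset.mem_univ _⟩
  obtain ⟨T, hTdef⟩ : ∃ T, T = (a' j₀).natAbs := ⟨_, rfl⟩
  have hmax : ∀ j, (a' j).natAbs ≤ T := fun j => by rw [hTdef]; exact hj₀ j (Finset.mem_univ _)
  have hTB : B < T := by
    have h1 := hmax j₁
    have h2 : (B : ℤ) < ((a' j₁).natAbs : ℤ) := by rw [Int.natCast_natAbs]; exact hj₁
    omega
  have hL2 : 2 ≤ L := by omega
  have hT0 : 0 < T := by omega
  obtain ⟨m, n, hm1, hm2, hf⟩ := dirichlet L T (by omega) hT0 a'
  have hM : 1 ≤ L ^ P := Nat.one_le_pow _ _ (by omega)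
  have h2m : 2 * m ≤ T := by
    have : 2 * L ^ P * 1 ≤ 2 * L ^ P * (C + 1) := Nat.mul_le_mul_left _ (by omega)
    omega
  have hTz : (0 : ℤ) < T := by exact_mod_cast hT0
  have hf2 : ∀ j, 2 * |(m : ℤ) * a' j - T * n j| < T := by
    intro j
    have h1 := hf j
    have h2 : |(m : ℤ) * a' j - T * n j| * 2 ≤ |(m : ℤ) * a' j - T * n j| * L :=
      mul_le_mul_of_nonneg_left (by exact_mod_cast hL2) (abs_nonneg _)
    linarith
  -- the signs
  have hsg : ∀ j, (a' j - n j).natAbs + (n j).natAbs = (a' j).natAbs := by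
    intro j
    have h1 := hf2 j
    have hmT : (m : ℤ) ≤ T := by exact_mod_cast (by omega : m ≤ T)
    have hm1' : (1 : ℤ) ≤ m := by exact_mod_cast hm1
    have h2 : -(T : ℤ) < (m : ℤ) * a' j - T * n j := by
      have := neg_abs_le ((m : ℤ) * a' j - T * n j)
      have := abs_nonneg ((m : ℤ) * a' j - T * n j)
      linarith
    have h3 : (m : ℤ) * a' j - T * n j < T := by
      have := le_abs_self ((m : ℤ) * a' j - T * n j)
      have := abs_nonneg ((m : ℤ) * a' j - T * n j)
      linarith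
    generalize a' j = x at *
    generalize n j = y at *
    rcases lt_trichotomy x 0 with hx | hx | hx
    · have h4 : y ≤ 0 := by
        by_contra hc
        have : 1 ≤ y := by omega
        nlinarith
      have h5 : x ≤ y := by
        by_contra hc
        have : y ≤ x - 1 := by omega
        nlinarith
      omega
    · subst hx
      have h4 : y = 0 := by
        by_contra hc
        rcases lt_or_gt_of_ne hc with h | h
        · have : y ≤ -1 := by omega
          nlinarith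
        · have : 1 ≤ y := by omega
          nlinarith
      omega
    · have h4 : 0 ≤ y := by
        by_contra hc
        have : y ≤ -1 := by omega
        nlinarith
      have h5 : y ≤ x := by
        by_contra hc
        have : x + 1 ≤ y := by omega
        nlinarith
      omega
  have hn0 : n j₀ ≠ 0 := by
    intro h0
    have h1 := hf2 j₀
    rw [h0, mul_zero, sub_zero, abs_mul, Nat.abs_cast, Int.abs_eq_natAbs, ← hTdef] at h1
    have h2 : (1 : ℤ) ≤ m := by exact_mod_cast hm1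
    nlinarith
  -- the height of `n`
  have hHa' : H a' ≤ C := by
    have h1 : a' = a + -(a - a') := by abel
    have h2 := hadd a (-(a - a'))
    rw [← h1, hneg, ha'] at h2
    omega
  have hz : ∀ (k : ℤ) (b : Fin P → ℤ), H (k • b) = k.natAbs * H b := by
    intro k b
    rcases Int.natAbs_eq k with h | h
    · conv_lhs => rw [h, natCast_zsmul]
      exact hmul _ _
    · conv_lhs => rw [h, neg_smul, natCast_zsmul, hneg]
      exact hmul _ _
  have hsm : ∀ (s : Finset (Fin P)) (b : Fin P → Fin P → ℤ), H (∑ j ∈ s, b j) ≤ ∑ j ∈ s, H (b j) := by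
    intro s b
    induction s using Finset.induction_on with
    | empty =>
      have := hmul 0 0
      rw [zero_smul, zero_mul] at this
      simp [this]
    | insert j s hj ih =>
      rw [Finset.sum_insert hj, Finset.sum_insert hj]
      exact (hadd _ _).trans (Nat.add_le_add_left ih _)
  obtain ⟨f, hfdef⟩ : ∃ f : Fin P → ℤ, f = fun j => (m : ℤ) * a' j - T * n j := ⟨_, rfl⟩
  have hHf : H f * L ≤ P * C * T := by
    have h1 : f = ∑ j, f j • (Pi.single j 1 : Fin P → ℤ) := by
      funext i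
      simp [Finset.sum_apply, Pi.single_apply]
    have h2 : H f ≤ ∑ j, (f j).natAbs * C := by
      conv_lhs => rw [h1]
      refine (hsm _ _).trans (Finset.sum_le_sum fun j _ => ?_)
      rw [hz]
      exact Nat.mul_le_mul_left _ (hs j)
    have h3 : ∀ j, (f j).natAbs * L ≤ T := by
      intro j
      have := hf j
      have h4 : |(m : ℤ) * a' j - T * n j| = ((f j).natAbs : ℤ) := by
        rw [hfdef, Int.natCast_natAbs]
      rw [h4] at this
      exact_mod_cast this.le
    calc H f * L ≤ (∑ j, (f j).natAbs * C) * L := Nat.mul_le_mul_right _ h2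
      _ = ∑ j, ((f j).natAbs * L) * C := by
          rw [Finset.sum_mul]
          exact Finset.sum_congr rfl fun j _ => by ring
      _ ≤ ∑ _j : Fin P, T * C := Finset.sum_le_sum fun j _ => Nat.mul_le_mul_right _ (h3 j)
      _ = P * C * T := by
          rw [Finset.sum_const, Finset.card_univ, Fintype.card_fin, smul_eq_mul]
          ring
  have hHn : H n = 0 := by
    have h1 : (T : ℕ) • n = (m : ℕ) • a' + -f := by
      funext j
      simp [hfdef]
    have h2 : T * H n ≤ m * H a' + H f := by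
      rw [← hmul T n, h1, ← hmul m a', ← hneg f]
      exact hadd _ _
    by_contra hne
    have h3 : 1 ≤ H n := Nat.one_le_iff_ne_zero.2 hne
    have h4 : T ≤ m * H a' + H f := (Nat.le_mul_of_pos_right T h3).trans h2
    have h5 : m * H a' ≤ L ^ P * C := Nat.mul_le_mul hm2 hHa'
    have h6 : T * L ≤ L ^ P * C * L + P * C * T := by
      calc T * L ≤ (m * H a' + H f) * L := Nat.mul_le_mul_right _ h4
        _ = m * H a' * L + H f * L := by ring
        _ ≤ _ := Nat.add_le_add (Nat.mul_le_mul_right _ h5) hHf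
    have h7 : 2 * (L ^ P * C * L) < T * L := by
      have h8 : 2 * (L ^ P * C) < T := by
        refine lt_of_le_of_lt ?_ hTB
        rw [hB]
        nlinarith
      calc 2 * (L ^ P * C * L) = 2 * (L ^ P * C) * L := by ring
        _ < T * L := Nat.mul_lt_mul_of_pos_right h8 (by omega)
    have h9 : 2 * (P * C * T) ≤ T * L := by
      rw [hLdef]
      nlinarith
    omega
  -- the contradiction
  have h1 : H (a - (a' - n)) = 0 := by
    have h2 : a - (a' - n) = (a - a') + n := by abel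
    have h3 := hadd (a - a') n
    rw [← h2, ha', hHn] at h3
    omega
  have h4 := hmin _ h1
  have h5 : ∑ j, ((a' - n) j).natAbs + ∑ j, (n j).natAbs = ∑ j, (a' j).natAbs := by
    rw [← Finset.sum_add_distrib]
    exact Finset.sum_congr rfl fun j _ => hsg j
  have h6 : 0 < ∑ j, (n j).natAbs :=
    Finset.sum_pos' (fun _ _ => Nat.zero_le _) ⟨j₀, Finset.mem_univ _, Int.natAbs_pos.2 hn0⟩
  omega

end Pool.Agent.N42.HK
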